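import Mathlib

/-!
# Homogeneously traceable graphs with a spanning theta: cycles in the theta (MP_2a07a8_co)
-/

set_option autoImplicit false

namespace Pool.Agent.KTH

variable {V : Type*} [DecidableEq V] {G : SimpleGraph V}

/-- `a, L, b` is a walk. -/
def Con (G : SimpleGraph V) (a : V) (L : List V) (b : V) : Prop :=
  (a :: (L ++ [b])).IsChain G.Adj

omit [DecidableEq V] in
theorem con_nil {a b : V} : Con G a [] b ↔ G.Adj a b := by
  unfold Con
  simp

omit [DecidableEq V] in
theorem con_split {a b c : V} {L M : List V} :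
    Con G a (L ++ c :: M) b ↔ Con G a L c ∧ Con G c M b := by
  unfold Con
  have h : a :: ((L ++ c :: M) ++ [b]) = a :: (L ++ c :: (M ++ [b])) := by simp
  rw [h]
  exact List.isChain_cons_split

omit [DecidableEq V] in
theorem con_cons {a b c : V} {M : List V} :
    Con G a (c :: M) b ↔ G.Adj a c ∧ Con G c M b := by
  have h := con_split (G := G) (a := a) (b := b) (c := c) (L := []) (M := M)
  rw [List.nil_append, con_nil] at h
  exact h

omit [DecidableEq V] in
theorem con_rev {a b : V} {L : List V} : Con G a L.reverse b ↔ Con G b L a := by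
  unfold Con
  have h : (a :: (L.reverse ++ [b])) = (b :: (L ++ [a])).reverse := by simp
  rw [h, List.isChain_reverse]
  constructor
  · exact fun h => h.imp fun _ _ h => h.symm
  · exact fun h => h.imp fun _ _ h => h.symm

/-- All cycles are short. -/
def Bd (G : SimpleGraph V) (N : ℕ) : Prop :=
  ∀ (u : V) (L : List V), Con G u L u → (u :: L).Nodup → 2 ≤ L.length →
    3 * (L.length + 1) ≤ 2 * N + 5

theorem nodup_of_count {l l' : List V} (h : l.Nodup) (hc : ∀ w, l'.count w ≤ l.count w) :
    l'.Nodup :=
  List.nodup_iff_count_le_one.2 fun w => (hc w).trans (List.nodup_iff_count_le_one.1 h w)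

/-- A spanning theta with branch vertices `u`, `v` and legs `X`, `Y`, `Z`. -/
structure Th (G : SimpleGraph V) (u v : V) (X Y Z : List V) : Prop where
  cx : Con G u X v
  cy : Con G u Y v
  cz : Con G u Z v
  nd : (u :: v :: (X ++ (Y ++ Z))).Nodup

/-- The outer cycle. -/
theorem I0 {u v : V} {X Y Z : List V} {N : ℕ} (h : Th G u v X Y Z) (hB : Bd G N)
    (h1 : 1 ≤ X.length + Z.length) : 3 * (X.length + Z.length + 2) ≤ 2 * N + 5 := by
  have h2 := hB u (X ++ v :: Z.reverse) (by
    rw [con_split, con_rev]
    exact ⟨h.cx, h.cz⟩) (nodup_of_count h.nd fun w => by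
      simp only [List.count_append, List.count_cons, List.count_reverse]
      omega) (by simp; omega)
  simp only [List.length_append, List.length_cons, List.length_reverse] at h2
  omega

/-- A cross edge. -/
theorem I1 {u v p q : V} {X1 X2 Y1 Y2 Z : List V} {N : ℕ}
    (h : Th G u v (X1 ++ p :: X2) (Y1 ++ q :: Y2) Z) (hB : Bd G N) (hpq : G.Adj p q) :
    3 * (X1.length + Y2.length + Z.length + 4) ≤ 2 * N + 5 := by
  obtain ⟨cx, cy, cz, nd⟩ := h
  rw [con_split] at cx cy
  have h2 := hB u (X1 ++ p :: q :: (Y2 ++ v :: Z.reverse)) (by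
    rw [con_split, con_cons, con_split, con_rev]
    exact ⟨cx.1, hpq, cy.2, cz⟩) (nodup_of_count nd fun w => by
      simp only [List.count_append, List.count_cons, List.count_reverse]
      omega) (by simp; omega)
  simp only [List.length_append, List.length_cons, List.length_reverse] at h2
  omega

/-- Two crossing edges, first cycle. -/
theorem I2a {u v p q p' q' : V} {X1 X2 X3 Y1 Y2 Y3 Z : List V} {N : ℕ}
    (h : Th G u v (X1 ++ p :: (X2 ++ p' :: X3)) (Y1 ++ q :: (Y2 ++ q' :: Y3)) Z)
    (hB : Bd G N) (hpq : G.Adj p q) (hpq' : G.Adj p' q') :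
    3 * (X1.length + Y2.length + X3.length + Z.length + 6) ≤ 2 * N + 5 := by
  obtain ⟨cx, cy, cz, nd⟩ := h
  rw [con_split, con_split] at cx cy
  have h2 := hB u (X1 ++ p :: q :: (Y2 ++ q' :: p' :: (X3 ++ v :: Z.reverse))) (by
    rw [con_split, con_cons, con_split, con_cons, con_split, con_rev]
    exact ⟨cx.1, hpq, cy.2.1, hpq'.symm, cx.2.2, cz⟩) (nodup_of_count nd fun w => by
      simp only [List.count_append, List.count_cons, List.count_reverse]
      omega) (by simp; omega)
  simp only [List.length_append, List.length_cons, List.length_reverse] at h2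
  omega

/-- A chord jumping over a cross vertex, first cycle. -/
theorem I3a {u v p q r s : V} {X1 X2 X3 X4 Y1 Y2 Z : List V} {N : ℕ}
    (h : Th G u v (X1 ++ p :: (X2 ++ q :: (X3 ++ r :: X4))) (Y1 ++ s :: Y2) Z)
    (hB : Bd G N) (hpr : G.Adj p r) (hqs : G.Adj q s) :
    3 * (X1.length + X3.length + Y2.length + Z.length + 6) ≤ 2 * N + 5 := by
  obtain ⟨cx, cy, cz, nd⟩ := h
  rw [con_split, con_split, con_split] at cx
  rw [con_split] at cy
  have h2 := hB u (X1 ++ p :: r :: (X3.reverse ++ q :: s :: (Y2 ++ v :: Z.reverse))) (by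
    rw [con_split, con_cons, con_split, con_rev, con_cons, con_split, con_rev]
    exact ⟨cx.1, hpr, cx.2.2.1, hqs, cy.2, cz⟩) (nodup_of_count nd fun w => by
      simp only [List.count_append, List.count_cons, List.count_reverse]
      omega) (by simp; omega)
  simp only [List.length_append, List.length_cons, List.length_reverse] at h2
  omega

/-- Two cross edges from one leg to the two other legs. -/
theorem I4 {u v p q p' q' : V} {X1 X2 X3 Y1 Y2 Z1 Z2 : List V} {N : ℕ}
    (h : Th G u v (X1 ++ p :: (X2 ++ p' :: X3)) (Y1 ++ q :: Y2) (Z1 ++ q' :: Z2))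
    (hB : Bd G N) (hpq : G.Adj p q) (hpq' : G.Adj p' q') :
    3 * (X1.length + Y2.length + X3.length + Z1.length + 6) ≤ 2 * N + 5 := by
  obtain ⟨cx, cy, cz, nd⟩ := h
  rw [con_split, con_split] at cx
  rw [con_split] at cy cz
  have h2 := hB u (X1 ++ p :: q :: (Y2 ++ v :: (X3.reverse ++ p' :: q' :: Z1.reverse))) (by
    rw [con_split, con_cons, con_split, con_split, con_rev, con_cons, con_rev]
    exact ⟨cx.1, hpq, cy.2, cx.2.2, hpq', cz.1⟩) (nodup_of_count nd fun w => by
      simp only [List.count_append, List.count_cons, List.count_reverse]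
      omega) (by simp; omega)
  simp only [List.length_append, List.length_cons, List.length_reverse] at h2
  omega

end Pool.Agent.KTH
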