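import Pool.Agent.KTH.Basic

/-!
# Homogeneously traceable graphs with a spanning theta: cross edges (MP_2a07a8_co)
-/

set_option autoImplicit false
set_option linter.unusedSectionVars false

namespace Pool.Agent.KTH

variable {V : Type*} [DecidableEq V] {G : SimpleGraph V}

theorem Th.swap {u v : V} {X Y Z : List V} (h : Th G u v X Y Z) : Th G u v Y X Z :=
  ⟨h.cy, h.cx, h.cz, nodup_of_count h.nd fun w => by
    simp only [List.count_append, List.count_cons]
    omega⟩

theorem Th.swap' {u v : V} {X Y Z : List V} (h : Th G u v X Y Z) : Th G u v X Z Y :=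
  ⟨h.cx, h.cz, h.cy, nodup_of_count h.nd fun w => by
    simp only [List.count_append, List.count_cons]
    omega⟩

theorem Th.rev {u v : V} {X Y Z : List V} (h : Th G u v X Y Z) :
    Th G v u X.reverse Y.reverse Z.reverse :=
  ⟨con_rev.2 h.cx, con_rev.2 h.cy, con_rev.2 h.cz, nodup_of_count h.nd fun w => by
    simp only [List.count_append, List.count_cons, List.count_reverse]
    omega⟩

/-- The size of the graph and the bound for the cycles. -/
structure Sz (G : SimpleGraph V) (N : ℕ) (X Y Z : List V) : Prop where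
  bd : Bd G N
  card : N = X.length + Y.length + Z.length + 2
  big : 12 ≤ N

theorem Sz.swap {N : ℕ} {X Y Z : List V} (h : Sz G N X Y Z) : Sz G N Y X Z :=
  ⟨h.bd, by rw [h.card]; omega, h.big⟩

theorem Sz.swap' {N : ℕ} {X Y Z : List V} (h : Sz G N X Y Z) : Sz G N X Z Y :=
  ⟨h.bd, by rw [h.card]; omega, h.big⟩

theorem Sz.rev {N : ℕ} {X Y Z : List V} (h : Sz G N X Y Z) :
    Sz G N X.reverse Y.reverse Z.reverse :=
  ⟨h.bd, by rw [h.card]; simp, h.big⟩

theorem bal1 {u v : V} {X Y Z : List V} {N : ℕ} (h : Th G u v X Y Z) (hs : Sz G N X Y Z) :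
    X.length + Z.length ≤ 2 * Y.length + 3 := by
  obtain ⟨hB, hN, hb⟩ := hs
  by_cases h1 : 1 ≤ X.length + Z.length
  · have := I0 h hB h1
    omega
  · omega

/-- The lengths of the legs are balanced. -/
theorem bal {u v : V} {X Y Z : List V} {N : ℕ} (h : Th G u v X Y Z) (hs : Sz G N X Y Z) :
    X.length + Z.length ≤ 2 * Y.length + 3 ∧ X.length + Y.length ≤ 2 * Z.length + 3 ∧
    Y.length + Z.length ≤ 2 * X.length + 3 ∧ 3 ≤ X.length ∧ 3 ≤ Y.length ∧ 3 ≤ Z.length := by
  have h1 := bal1 h hs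
  have h2 := bal1 h.swap' hs.swap'
  have h3 := bal1 h.swap hs.swap
  have h4 := hs.card
  have h5 := hs.big
  omega

/-- The two inequalities for a cross edge. -/
theorem crs {u v p q : V} {X1 X2 Y1 Y2 Z : List V} {N : ℕ}
    (h : Th G u v (X1 ++ p :: X2) (Y1 ++ q :: Y2) Z)
    (hs : Sz G N (X1 ++ p :: X2) (Y1 ++ q :: Y2) Z) (hpq : G.Adj p q) :
    3 * (X1.length + Y2.length + Z.length + 4) ≤ 2 * N + 5 ∧
    3 * (Y1.length + X2.length + Z.length + 4) ≤ 2 * N + 5 :=
  ⟨I1 h hs.bd hpq, I1 h.swap hs.bd hpq.symm⟩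

theorem split_two {X : List V} {p p' : V} (hp : p ∈ X) (hp' : p' ∈ X) (hne : p ≠ p') :
    (∃ X1 X2 X3, X = X1 ++ p :: (X2 ++ p' :: X3)) ∨
    (∃ X1 X2 X3, X = X1 ++ p' :: (X2 ++ p :: X3)) := by
  obtain ⟨A, B, rfl⟩ := List.append_of_mem hp
  rw [List.mem_append, List.mem_cons] at hp'
  rcases hp' with h | h | h
  · obtain ⟨C, D, rfl⟩ := List.append_of_mem h
    right
    exact ⟨C, D, B, by simp⟩
  · exact absurd h.symm hne
  · obtain ⟨C, D, rfl⟩ := List.append_of_mem h
    left
    exact ⟨A, C, D, rfl⟩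

/-- Two cross edges between the same legs have a common vertex. -/
theorem same {u v p q p' q' : V} {X Y Z : List V} {N : ℕ}
    (h : Th G u v X Y Z) (hs : Sz G N X Y Z) (hp : p ∈ X) (hq : q ∈ Y) (hp' : p' ∈ X)
    (hq' : q' ∈ Y) (hpq : G.Adj p q) (hpq' : G.Adj p' q') : p = p' ∨ q = q' := by
  by_contra hcon
  rw [not_or] at hcon
  obtain ⟨hne, hne'⟩ := hcon
  have hb := bal h hs
  have hN := hs.card
  have hB := hs.bd
  rcases split_two hp hp' hne with ⟨X1, X2, X3, rfl⟩ | ⟨X1, X2, X3, rfl⟩ <;>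
    rcases split_two hq hq' hne' with ⟨Y1, Y2, Y3, rfl⟩ | ⟨Y1, Y2, Y3, rfl⟩
  · have h1 := I2a h hB hpq hpq'
    have h2 := I2a h.swap hB hpq.symm hpq'.symm
    simp only [List.length_append, List.length_cons] at hb hN
    omega
  · have h1 : 3 * (X1.length + Y3.length + Z.length + 4) ≤ 2 * N + 5 := by
      have hT : Th G u v (X1 ++ p :: (X2 ++ p' :: X3)) ((Y1 ++ q' :: Y2) ++ q :: Y3) Z := by
        simpa using h
      exact I1 hT hB hpq
    have h2 : 3 * ((Y1.length + 1 + Y2.length) + (X2.length + 1 + X3.length) + Z.length + 4) ≤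
        2 * N + 5 := by
      have hT : Th G u v (X1 ++ p :: (X2 ++ p' :: X3)) ((Y1 ++ q' :: Y2) ++ q :: Y3) Z := by
        simpa using h
      have := I1 hT.swap hB hpq.symm
      simp only [List.length_append, List.length_cons] at this
      omega
    have h3 : 3 * ((X1.length + 1 + X2.length) + (Y2.length + 1 + Y3.length) + Z.length + 4) ≤
        2 * N + 5 := by
      have hT : Th G u v ((X1 ++ p :: X2) ++ p' :: X3) (Y1 ++ q' :: (Y2 ++ q :: Y3)) Z := by
        simpa using h
      have := I1 hT hB hpq'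
      simp only [List.length_append, List.length_cons] at this
      omega
    simp only [List.length_append, List.length_cons] at hb hN
    omega
  · have h1 : 3 * (X1.length + Y3.length + Z.length + 4) ≤ 2 * N + 5 := by
      have hT : Th G u v (X1 ++ p' :: (X2 ++ p :: X3)) ((Y1 ++ q :: Y2) ++ q' :: Y3) Z := by
        simpa using h
      exact I1 hT hB hpq'
    have h2 : 3 * ((Y1.length + 1 + Y2.length) + (X2.length + 1 + X3.length) + Z.length + 4) ≤
        2 * N + 5 := by
      have hT : Th G u v (X1 ++ p' :: (X2 ++ p :: X3)) ((Y1 ++ q :: Y2) ++ q' :: Y3) Z := by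
        simpa using h
      have := I1 hT.swap hB hpq'.symm
      simp only [List.length_append, List.length_cons] at this
      omega
    have h3 : 3 * ((X1.length + 1 + X2.length) + (Y2.length + 1 + Y3.length) + Z.length + 4) ≤
        2 * N + 5 := by
      have hT : Th G u v ((X1 ++ p' :: X2) ++ p :: X3) (Y1 ++ q :: (Y2 ++ q' :: Y3)) Z := by
        simpa using h
      have := I1 hT hB hpq
      simp only [List.length_append, List.length_cons] at this
      omega
    simp only [List.length_append, List.length_cons] at hb hN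
    omega
  · have h1 := I2a h hB hpq' hpq
    have h2 := I2a h.swap hB hpq'.symm hpq.symm
    simp only [List.length_append, List.length_cons] at hb hN
    omega

theorem diff1 {u v p q p' q' : V} {X1 X2 X3 Y Z : List V} {N : ℕ}
    (h : Th G u v (X1 ++ p :: (X2 ++ p' :: X3)) Y Z)
    (hs : Sz G N (X1 ++ p :: (X2 ++ p' :: X3)) Y Z)
    (hq : q ∈ Y) (hq' : q' ∈ Z) (hpq : G.Adj p q) (hpq' : G.Adj p' q') : False := by
  have hb := bal h hs
  have hN := hs.card
  have hB := hs.bd
  obtain ⟨Y1, Y2, rfl⟩ := List.append_of_mem hq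
  obtain ⟨Z1, Z2, rfl⟩ := List.append_of_mem hq'
  have h0 := I4 h hB hpq hpq'
  have h1 := I1 h.swap hB hpq.symm
  have h2 : 3 * ((X1.length + 1 + X2.length) + Z2.length + (Y1.length + 1 + Y2.length) + 4) ≤
      2 * N + 5 := by
    have hT : Th G u v ((X1 ++ p :: X2) ++ p' :: X3) (Z1 ++ q' :: Z2) (Y1 ++ q :: Y2) := by
      simpa using h.swap'
    have := I1 hT hB hpq'
    simp only [List.length_append, List.length_cons] at this
    omega
  simp only [List.length_append, List.length_cons] at hb hN h1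
  omega

/-- Two cross edges from one leg to the two other legs have a common vertex. -/
theorem diff {u v p q p' q' : V} {X Y Z : List V} {N : ℕ}
    (h : Th G u v X Y Z) (hs : Sz G N X Y Z) (hp : p ∈ X) (hq : q ∈ Y) (hp' : p' ∈ X)
    (hq' : q' ∈ Z) (hpq : G.Adj p q) (hpq' : G.Adj p' q') : p = p' := by
  by_contra hne
  rcases split_two hp hp' hne with ⟨X1, X2, X3, rfl⟩ | ⟨X1, X2, X3, rfl⟩
  · exact diff1 h hs hq hq' hpq hpq'
  · exact diff1 h.swap' hs.swap' hq' hq hpq' hpq

/-- No chord jumps over a cross vertex. -/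
theorem jump {u v p q r s : V} {H1 H2 Y Z : List V} {N : ℕ}
    (h : Th G u v (H1 ++ q :: H2) Y Z) (hs : Sz G N (H1 ++ q :: H2) Y Z) (hp : p ∈ H1)
    (hr : r ∈ H2) (hsY : s ∈ Y) (hqs : G.Adj q s) : ¬ G.Adj p r := by
  intro hpr
  have hb := bal h hs
  have hN := hs.card
  have hB := hs.bd
  obtain ⟨Y1, Y2, rfl⟩ := List.append_of_mem hsY
  obtain ⟨X1, X2, rfl⟩ := List.append_of_mem hp
  obtain ⟨X3, X4, rfl⟩ := List.append_of_mem hr
  have hT : Th G u v (X1 ++ p :: (X2 ++ q :: (X3 ++ r :: X4))) (Y1 ++ s :: Y2) Z := by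
    simpa using h
  have h1 := I3a hT hB hpr hqs
  have hT' : Th G v u (X4.reverse ++ r :: (X3.reverse ++ q :: (X2.reverse ++ p :: X1.reverse)))
      (Y2.reverse ++ s :: Y1.reverse) Z.reverse := by
    simpa using hT.rev
  have h2 := I3a hT' hB hpr.symm hqs
  simp only [List.length_append, List.length_cons, List.length_reverse] at hb hN h1 h2
  omega

end Pool.Agent.KTH
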