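import Pool.Agent.KTH.Main

/-!
# Homogeneously traceable graphs with a spanning theta: end of the proof (MP_2a07a8_co)
-/

set_option autoImplicit false

namespace Pool.Agent.KTH

variable {V : Type*} [DecidableEq V] {G : SimpleGraph V}

theorem caseB {u v x : V} {H2 Y Z M : List V} {N : ℕ} (h : Th G u v (x :: H2) Y Z)
    (hs : Sz G N (x :: H2) Y Z) (hM : Con G u M x) (hp : M.Perm Y) : False := by
  obtain ⟨cx, cy, cz, nd⟩ := h
  rw [con_cons] at cx
  have hl := hp.length_eq
  have h2 := hs.bd u (M ++ x :: (H2 ++ v :: Z.reverse)) (by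
    rw [con_split, con_split, con_rev]
    exact ⟨hM, cx.2, cz⟩) (nodup_of_count nd fun w => by
      simp only [List.count_append, List.count_cons, List.count_reverse, hp.count_eq]
      omega) (by simp; omega)
  have h3 := hs.card
  have h4 := hs.big
  simp only [List.length_append, List.length_cons, List.length_reverse] at h2 h3
  omega

theorem caseA {u v x q : V} {H2 Y Z M : List V} {N : ℕ} (h : Th G u v (x :: H2) Y Z)
    (hs : Sz G N (x :: H2) Y Z) (hq : q ∈ Y) (hM : Con G u M x) (hp : M.Perm H2)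
    (hxq : G.Adj x q) : False := by
  obtain ⟨Y1, Y2, rfl⟩ := List.append_of_mem hq
  have hb := bal h hs
  have h1 := crs (X1 := []) h hs hxq
  obtain ⟨cx, cy, cz, nd⟩ := h
  rw [con_cons] at cx
  rw [con_split] at cy
  have hl := hp.length_eq
  have h2 := hs.bd u (M ++ x :: q :: (Y2 ++ v :: Z.reverse)) (by
    rw [con_split, con_cons, con_split, con_rev]
    exact ⟨hM, hxq, cy.2, cz⟩) (nodup_of_count nd fun w => by
      simp only [List.count_append, List.count_cons, List.count_reverse, hp.count_eq]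
      omega) (by simp; omega)
  have h3 := hs.card
  have h4 := hs.big
  simp only [List.length_append, List.length_cons, List.length_reverse, List.length_nil] at *
  omega

/-- If a Hamilton path starts at `v` then the hub is not the first vertex of its leg. -/
theorem claim2 {u v : V} {L : Fin 3 → List V} {N : ℕ} (h : T3 G u v L N) {P : List V}
    (hP : Hp G v P) {i : Fin 3} {x a : V} {H2 : List V} (hL : L i = x :: H2)
    (hx : Ce G L a x) (hC : (v :: P).IsChain (fun a b => Ce G L a b → a = x ∨ b = x)) :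
    False := by
  have hxi : x ∈ L i := by
    rw [hL]
    simp
  obtain ⟨M, s, t, hst, hcon, hMnd, hch, hav, hcov⟩ := split3 h hP hxi hC
  obtain ⟨j, k, hij, hik, hjk⟩ := other i
  have hnd := (h.leg i).2.2.2.1
  rw [hL, List.nodup_cons] at hnd
  have hlen := (h.leg i).2.2.2.2
  rw [hL, List.length_cons] at hlen
  have hsub2 : ∀ y ∈ H2, y ∈ L i := fun y hy => by
    rw [hL]
    simp [hy]
  have hne2 : ∀ y ∈ H2, y ≠ x := fun y hy h => hnd.1 (h ▸ hy)
  have h4 := (pigeon M (![fun y => y ∈ H2, fun y => y ∈ L j,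
    fun y => y ∈ L k] : Fin 3 → V → Prop) ?_ ?_ ?_ ?_).2 rfl 1
  · obtain ⟨M', hM', hperm⟩ : ∃ M' : List V, Con G u M' x ∧ M'.Perm (M 1) := by
      rcases hst with ⟨rfl, rfl⟩ | ⟨rfl, rfl⟩
      · exact ⟨M 1, hcon, List.Perm.refl _⟩
      · exact ⟨(M 1).reverse, con_rev.2 hcon, List.reverse_perm _⟩
    obtain ⟨k0, hk0⟩ := h4
    fin_cases k0
    · have hp : (M 1).Perm H2 := (List.perm_ext_iff_of_nodup (hMnd 1) hnd.2).2 hk0
      obtain ⟨hax, i1, i2, h12, ha1, hx2⟩ := hx
      have hi2 : i2 = i := h.inj hx2 hxi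
      rw [hi2] at h12
      obtain ⟨i3, h13, h23⟩ := third i1 i h12
      have hT := h.th i i1 i3 h12.symm h23 h13
      have hS := h.sz i i1 i3 h12.symm h23 h13
      rw [hL] at hT hS
      exact caseA hT hS ha1 hM' (hperm.trans hp) hax.symm
    · have hp : (M 1).Perm (L j) :=
        (List.perm_ext_iff_of_nodup (hMnd 1) (h.leg j).2.2.2.1).2 hk0
      have hT := h.th i j k hij hik hjk
      have hS := h.sz i j k hij hik hjk
      rw [hL] at hT hS
      exact caseB hT hS hM' (hperm.trans hp)
    · have hp : (M 1).Perm (L k) :=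
        (List.perm_ext_iff_of_nodup (hMnd 1) (h.leg k).2.2.2.1).2 hk0
      have hT := h.th i k j hik hij hjk.symm
      have hS := h.sz i k j hik hij hjk.symm
      rw [hL] at hT hS
      exact caseB hT hS hM' (hperm.trans hp)
  · intro k1 k2 y h1 h2
    fin_cases k1 <;> fin_cases k2 <;> first
      | rfl
      | (exfalso
         first
         | exact hij (h.inj (hsub2 y h1) h2)
         | exact hik (h.inj (hsub2 y h1) h2)
         | exact hij (h.inj (hsub2 y h2) h1)
         | exact hik (h.inj (hsub2 y h2) h1)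
         | exact hjk (h.inj h1 h2)
         | exact hjk (h.inj h2 h1))
  · intro k1
    fin_cases k1
    · exact List.exists_mem_of_length_pos (by omega)
    · exact List.exists_mem_of_length_pos (by have := (h.leg j).2.2.2.2; omega)
    · exact List.exists_mem_of_length_pos (by have := (h.leg k).2.2.2.2; omega)
  · intro k1 y hy
    have key : ∀ i', y ∈ L i' → y ≠ x → ∃ j, y ∈ M j := fun i' hi' hyx =>
      hcov y (fun h1 => (h.leg i').2.1 (h1 ▸ hi')) (fun h1 => (h.leg i').2.2.1 (h1 ▸ hi')) hyx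
    fin_cases k1
    · exact key i (hsub2 y hy) (hne2 y hy)
    · exact key j hy (fun h1 => hij (h.inj hxi (h1 ▸ hy)))
    · exact key k hy (fun h1 => hik (h.inj hxi (h1 ▸ hy)))
  · intro j1 k1
    refine const _ _ _ (hch j1) fun c hc d hd hcd => ?_
    obtain ⟨hc1, hc2, hc3⟩ := hav j1 c hc
    obtain ⟨hd1, hd2, hd3⟩ := hav j1 d hd
    obtain ⟨ic, hic⟩ := h.notin hc1 hc2
    obtain ⟨id, hid⟩ := h.notin hd1 hd2
    have hcdi : ic = id := by
      by_contra hne
      rcases hcd.2 ⟨hcd.1, ic, id, hne, hic, hid⟩ with h1 | h1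
      · exact hc3 h1
      · exact hd3 h1
    rw [← hcdi] at hid
    have hleg : ∀ k2, (c ∈ L k2 ↔ d ∈ L k2) := fun k2 =>
      ⟨fun h1 => by rw [← h.inj hic h1]; exact hid, fun h1 => by rw [← h.inj hid h1]; exact hic⟩
    have hmem : ∀ y, y ≠ x → (y ∈ H2 ↔ y ∈ L i) := fun y hyx =>
      ⟨hsub2 y, fun hy => by
        rw [hL, List.mem_cons] at hy
        exact hy.resolve_left hyx⟩
    fin_cases k1
    · exact ((hmem c hc3).trans (hleg i)).trans (hmem d hd3).symm
    · exact hleg j
    · exact hleg k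

/-- A Hamilton path from `v` gives a cross edge at the last vertex of a leg. -/
theorem topv {u v : V} {L : Fin 3 → List V} {N : ℕ} (h : T3 G u v L N) {P : List V}
    (hP : Hp G v P) : ∃ (i : Fin 3) (H1 : List V) (x a : V), L i = H1 ++ [x] ∧ Ce G L a x := by
  rcases hub (Ce G L) (share h) (v :: P) hP.nd with h1 | ⟨x, a, hax, h1⟩
  · exact (claim0 h hP h1).elim
  · obtain ⟨i, hi⟩ : ∃ i, x ∈ L i := by
      obtain ⟨-, -, j, -, -, hj⟩ := hax
      exact ⟨j, hj⟩
    obtain ⟨H1, H2, hL⟩ := List.append_of_mem hi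
    by_cases h2 : H2 = []
    · subst h2
      exact ⟨i, H1, x, a, hL, hax⟩
    · by_cases h3 : H1 = []
      · subst h3
        exact (claim2 h hP hL hax h1).elim
      · exact (claim1 h hP hL hax h1 h3 h2).elim

theorem fin1 {u v p q : V} {X1 Y2 Z : List V} {N : ℕ} (h : Th G u v (X1 ++ [p]) (q :: Y2) Z)
    (hs : Sz G N (X1 ++ [p]) (q :: Y2) Z) (hpq : G.Adj p q) : False := by
  have h1 := crs (X2 := []) (Y1 := []) h hs hpq
  have h3 := hs.card
  have h4 := hs.big
  simp only [List.length_append, List.length_cons, List.length_nil] at *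
  omega

theorem fin2 {u v p p' q : V} {X X1 X2 Y Z : List V} {N : ℕ} (h : Th G u v X Y Z)
    (hs : Sz G N X Y Z) (hX1 : X = X1 ++ [p]) (hX2 : X = p' :: X2) (hq : q ∈ Y)
    (hpq : G.Adj p q) (hpq' : G.Adj p' q) : False := by
  obtain ⟨Y1, Y2, rfl⟩ := List.append_of_mem hq
  have hb := bal h hs
  have h3 := hs.card
  have h4 := hs.big
  have hl := congrArg List.length hX1
  have hl' := congrArg List.length hX2
  have h1 : 3 * (X1.length + Y2.length + Z.length + 4) ≤ 2 * N + 5 := by
    rw [hX1] at h hs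
    exact (crs h hs hpq).1
  have h2 : 3 * (Y1.length + X2.length + Z.length + 4) ≤ 2 * N + 5 := by
    rw [hX2] at h hs
    exact (crs (X1 := []) h hs hpq').2
  simp only [List.length_append, List.length_cons, List.length_nil] at *
  omega

theorem fin3 {u v p p' q : V} {X1 Y Z2 : List V} {N : ℕ}
    (h : Th G u v (X1 ++ [p]) Y (p' :: Z2)) (hs : Sz G N (X1 ++ [p]) Y (p' :: Z2)) (hq : q ∈ Y)
    (hpq : G.Adj p q) (hpq' : G.Adj p' q) : False := by
  obtain ⟨Y1, Y2, rfl⟩ := List.append_of_mem hq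
  have hb := bal h hs
  have h3 := hs.card
  have h4 := hs.big
  have h1 := (crs h hs hpq).1
  have h2 := (crs (X1 := []) h.swap'.swap.swap' hs.swap'.swap.swap' hpq').2
  simp only [List.length_append, List.length_cons, List.length_nil] at *
  omega

/-- Not both branch vertices are ends of Hamilton paths. -/
theorem main {u v : V} {L : Fin 3 → List V} {N : ℕ} (h : T3 G u v L N) {P Q : List V}
    (hP : Hp G v P) (hQ : Hp G u Q) : False := by
  obtain ⟨i, H1, x, a, hL, hax⟩ := topv h hP
  obtain ⟨i', H1', x', a', hL', hax'⟩ := topv h.rev hQ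
  have hax' := hax'.rev
  have hL' : L i' = x' :: H1'.reverse := by
    have h1 := congrArg List.reverse hL'
    simpa using h1
  have hxi : x ∈ L i := by
    rw [hL]
    simp
  have hxi' : x' ∈ L i' := by
    rw [hL']
    simp
  obtain ⟨hadj, j, i0, hj, ha, hx⟩ := hax
  obtain ⟨hadj', j', i0', hj', ha', hx'⟩ := hax'
  have e : i0 = i := h.inj hx hxi
  have e' : i0' = i' := h.inj hx' hxi'
  rw [e] at hj
  rw [e'] at hj'
  have hlen := (h.leg i).2.2.2.2
  have hnd := (h.leg i).2.2.2.1
  have bad : ∀ j, x' ∈ L j → i ≠ j → G.Adj x x' → False := by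
    intro j2 h1 h2 h3
    have e2 : j2 = i' := h.inj h1 hxi'
    rw [e2] at h2
    obtain ⟨k, hk1, hk2⟩ := third i i' h2
    have hT := h.th i i' k h2 hk1 hk2
    have hS := h.sz i i' k h2 hk1 hk2
    rw [hL, hL'] at hT hS
    exact fin1 hT hS h3
  rcases share h a x a' x' ⟨hadj, j, i, hj, ha, hxi⟩ ⟨hadj', j', i', hj', ha', hxi'⟩ with
    h1 | h1 | h1 | h1
  · -- `a = a'`
    rw [← h1] at ha' hadj'
    have e3 : j' = j := h.inj ha' ha
    rw [e3] at hj'
    by_cases hii : i' = i
    · rw [hii] at hL' hj'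
      obtain ⟨k, hk1, hk2⟩ := third i j hj.symm
      exact fin2 (h.th i j k hj.symm hk1 hk2) (h.sz i j k hj.symm hk1 hk2) hL hL' ha hadj.symm
        hadj'.symm
    · have hT := h.th i j i' hj.symm (Ne.symm hii) hj'
      have hS := h.sz i j i' hj.symm (Ne.symm hii) hj'
      rw [hL, hL'] at hT hS
      exact fin3 hT hS ha hadj.symm hadj'.symm
  · -- `a = x'`
    rw [h1] at ha hadj
    exact bad j ha hj.symm hadj.symm
  · -- `x = a'`
    rw [← h1] at ha' hadj'
    have e3 : j' = i := h.inj ha' hxi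
    rw [e3] at hj'
    exact bad i' hxi' hj' hadj'
  · -- `x = x'`
    rw [← h1] at hL' hxi'
    have e3 : i' = i := h.inj hxi' hxi
    rw [e3, hL] at hL'
    rw [hL] at hlen hnd
    cases H1 with
    | nil => simp at hlen
    | cons y H =>
      rw [List.cons_append, List.cons.injEq] at hL'
      rw [hL'.1, List.cons_append, List.nodup_cons] at hnd
      exact hnd.1 (by simp)

end Pool.Agent.KTH
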