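import Mathlib

/-!
# Lists: hubs, splitting and a pigeonhole principle (MP_2a07a8_co)
-/

set_option autoImplicit false

namespace Pool.Agent.KTH

variable {α : Type*}

theorem chain_of_mem {R : α → α → Prop} {l : List α} (h : ∀ c ∈ l, ∀ d ∈ l, R c d) :
    l.IsChain R := by
  rw [List.isChain_iff_forall_rel_of_append_cons_cons]
  rintro a b l₁ l₂ rfl
  exact h a (by simp) b (by simp)

/-- If any two pairs of `C` have a common member then the pairs of `C` which are consecutive in a
list without repetitions have a common member. -/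
theorem hub (C : α → α → Prop)
    (hC : ∀ a b c d, C a b → C c d → a = c ∨ a = d ∨ b = c ∨ b = d) :
    ∀ P : List α, P.Nodup → P.IsChain (fun a b => ¬ C a b) ∨
      ∃ h a, C a h ∧ P.IsChain (fun c d => C c d → c = h ∨ d = h)
  | [], _ => Or.inl List.IsChain.nil
  | [a], _ => Or.inl (List.IsChain.singleton a)
  | a :: b :: P, hP => by
    have hP2 := (List.nodup_cons.1 hP).2
    have ha := (List.nodup_cons.1 hP).1
    by_cases hab : C a b
    · right
      refine ⟨b, a, hab, ?_⟩
      rw [List.isChain_cons_cons]
      refine ⟨fun _ => Or.inr rfl, chain_of_mem fun c hc d hd hcd => ?_⟩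
      rcases hC a b c d hab hcd with h | h | h | h
      · exact absurd (h ▸ hc) ha
      · exact absurd (h ▸ hd) ha
      · exact Or.inl h.symm
      · exact Or.inr h.symm
    · rcases hub C hC (b :: P) hP2 with h | ⟨h, a', h1, h2⟩
      · left
        rw [List.isChain_cons_cons]
        exact ⟨hab, h⟩
      · right
        refine ⟨h, a', h1, ?_⟩
        rw [List.isChain_cons_cons]
        exact ⟨fun h3 => absurd h3 hab, h2⟩

/-- A property which is compatible with a chain is constant. -/
theorem const (R : α → α → Prop) (D : α → Prop) :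
    ∀ M : List α, M.IsChain R → (∀ c ∈ M, ∀ d ∈ M, R c d → (D c ↔ D d)) →
      (∀ x ∈ M, D x) ∨ (∀ x ∈ M, ¬ D x)
  | [], _, _ => Or.inl fun x hx => absurd hx (by simp)
  | [a], _, _ => by
    by_cases h : D a
    · left
      intro x hx
      rw [List.mem_singleton] at hx
      rwa [hx]
    · right
      intro x hx
      rw [List.mem_singleton] at hx
      rwa [hx]
  | a :: b :: M, hM, hD => by
    rw [List.isChain_cons_cons] at hM
    have h1 := hD a (by simp) b (by simp) hM.1
    rcases const R D (b :: M) hM.2 (fun c hc d hd => hD c (List.mem_cons_of_mem _ hc) d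
      (List.mem_cons_of_mem _ hd)) with h | h
    · left
      intro x hx
      rw [List.mem_cons] at hx
      rcases hx with rfl | hx
      · exact h1.2 (h b (by simp))
      · exact h x hx
    · right
      intro x hx
      rw [List.mem_cons] at hx
      rcases hx with rfl | hx
      · exact fun h2 => h b (by simp) (h1.1 h2)
      · exact h x hx

/-- Lists in which all members are in the same class. -/
theorem pigeon {l m : ℕ} (M : Fin l → List α) (D : Fin m → α → Prop)
    (hdisj : ∀ k k' x, D k x → D k' x → k = k') (hne : ∀ k, ∃ x, D k x)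
    (hcov : ∀ k x, D k x → ∃ j, x ∈ M j)
    (hconst : ∀ j k, (∀ x ∈ M j, D k x) ∨ (∀ x ∈ M j, ¬ D k x)) :
    m ≤ l ∧ (m = l → ∀ j, ∃ k, ∀ x, x ∈ M j ↔ D k x) := by
  choose x hx using hne
  have h1 : ∀ k, ∃ j, x k ∈ M j := fun k => hcov k (x k) (hx k)
  choose σ hσ using h1
  have hsub : ∀ k, ∀ y ∈ M (σ k), D k y := by
    intro k
    rcases hconst (σ k) k with h | h
    · exact h
    · exact absurd (hx k) (h _ (hσ k))
  have hinj : Function.Injective σ := by
    intro k k' h
    have h2 := hsub k' (x k) (h ▸ hσ k)
    exact hdisj k k' (x k) (hx k) h2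
  refine ⟨by simpa using Fintype.card_le_of_injective σ hinj, ?_⟩
  intro hml j
  subst hml
  have hsurj : Function.Surjective σ := Finite.surjective_of_injective hinj
  obtain ⟨k, rfl⟩ := hsurj j
  refine ⟨k, fun y => ⟨hsub k y, fun hy => ?_⟩⟩
  obtain ⟨j', hj'⟩ := hcov k y hy
  obtain ⟨k', rfl⟩ := hsurj j'
  have h2 := hdisj k' k y (hsub k' y hj') hy
  rwa [h2] at hj'

end Pool.Agent.KTH
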