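import Pool.Agent.KTH.Cross
import Pool.Agent.KTH.Lists

/-!
# Homogeneously traceable graphs with a spanning theta: the main argument (MP_2a07a8_co)
-/

set_option autoImplicit false
set_option linter.unusedSectionVars false

namespace Pool.Agent.KTH

variable {V : Type*} [DecidableEq V] {G : SimpleGraph V}

/-- A spanning theta with three legs. -/
structure T3 (G : SimpleGraph V) (u v : V) (L : Fin 3 → List V) (N : ℕ) : Prop where
  th : ∀ i j k, i ≠ j → i ≠ k → j ≠ k → Th G u v (L i) (L j) (L k)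
  sz : ∀ i j k, i ≠ j → i ≠ k → j ≠ k → Sz G N (L i) (L j) (L k)
  all : ∀ w, w = u ∨ w = v ∨ ∃ i, w ∈ L i

theorem T3.rev {u v : V} {L : Fin 3 → List V} {N : ℕ} (h : T3 G u v L N) :
    T3 G v u (fun i => (L i).reverse) N :=
  ⟨fun i j k h1 h2 h3 => (h.th i j k h1 h2 h3).rev,
    fun i j k h1 h2 h3 => (h.sz i j k h1 h2 h3).rev, fun w => by
      rcases h.all w with h1 | h1 | ⟨i, h1⟩
      · exact Or.inr (Or.inl h1)
      · exact Or.inl h1
      · exact Or.inr (Or.inr ⟨i, List.mem_reverse.2 h1⟩)⟩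

/-- Edges joining different legs. -/
def Ce (G : SimpleGraph V) (L : Fin 3 → List V) (p q : V) : Prop :=
  G.Adj p q ∧ ∃ i j, i ≠ j ∧ p ∈ L i ∧ q ∈ L j

omit [DecidableEq V] in
theorem Ce.symm {L : Fin 3 → List V} {p q : V} (h : Ce G L p q) : Ce G L q p := by
  obtain ⟨h1, i, j, h2, h3, h4⟩ := h
  exact ⟨h1.symm, j, i, h2.symm, h4, h3⟩

omit [DecidableEq V] in
theorem Ce.rev {L : Fin 3 → List V} {p q : V} (h : Ce G (fun i => (L i).reverse) p q) :
    Ce G L p q := by
  obtain ⟨h1, i, j, h2, h3, h4⟩ := h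
  exact ⟨h1, i, j, h2, List.mem_reverse.1 h3, List.mem_reverse.1 h4⟩

theorem third : ∀ i j : Fin 3, i ≠ j → ∃ k, i ≠ k ∧ j ≠ k := by decide

theorem three : ∀ i j k x : Fin 3, i ≠ j → i ≠ k → j ≠ k → x = i ∨ x = j ∨ x = k := by decide

theorem other : ∀ i : Fin 3, ∃ j k, i ≠ j ∧ i ≠ k ∧ j ≠ k := by decide

/-- Any two cross edges have a common vertex. -/
theorem share {u v : V} {L : Fin 3 → List V} {N : ℕ} (h : T3 G u v L N) (p q p' q' : V)
    (h1 : Ce G L p q) (h2 : Ce G L p' q') : p = p' ∨ p = q' ∨ q = p' ∨ q = q' := by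
  obtain ⟨hpq, i, j, hij, hp, hq⟩ := h1
  obtain ⟨hpq', i', j', hij', hp', hq'⟩ := h2
  obtain ⟨k, hik, hjk⟩ := third i j hij
  have hT := h.th i j k hij hik hjk
  have hS := h.sz i j k hij hik hjk
  have hT' := h.th j i k hij.symm hjk hik
  have hS' := h.sz j i k hij.symm hjk hik
  rcases three i j k i' hij hik hjk with e | e | e <;>
    rcases three i j k j' hij hik hjk with e' | e' | e' <;> rw [e] at hp' hij' <;>
    rw [e'] at hq' hij'
  · exact absurd rfl hij'
  · rcases same hT hS hp hq hp' hq' hpq hpq' with h | h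
    · exact Or.inl h
    · exact Or.inr (Or.inr (Or.inr h))
  · exact Or.inl (diff hT hS hp hq hp' hq' hpq hpq')
  · rcases same hT hS hp hq hq' hp' hpq hpq'.symm with h | h
    · exact Or.inr (Or.inl h)
    · exact Or.inr (Or.inr (Or.inl h))
  · exact absurd rfl hij'
  · exact Or.inr (Or.inr (Or.inl (diff hT' hS' hq hp hp' hq' hpq.symm hpq')))
  · exact Or.inr (Or.inl (diff hT hS hp hq hq' hp' hpq hpq'.symm))
  · exact Or.inr (Or.inr (Or.inr (diff hT' hS' hq hp hq' hp' hpq.symm hpq'.symm)))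
  · exact absurd rfl hij'

theorem Th.ne {u v : V} {X Y Z : List V} (h : Th G u v X Y Z) : u ≠ v ∧ u ∉ X ∧ v ∉ X ∧
    X.Nodup ∧ ∀ w, w ∈ X → w ∉ Y := by
  have h1 := h.nd
  simp only [List.nodup_cons, List.nodup_append, List.mem_cons, List.mem_append, not_or] at h1
  refine ⟨h1.1.1, h1.1.2.1, h1.2.1.1, h1.2.2.1, fun w hw hw' => ?_⟩
  exact h1.2.2.2.2 w hw w (Or.inl hw') rfl

theorem T3.leg {u v : V} {L : Fin 3 → List V} {N : ℕ} (h : T3 G u v L N) (i : Fin 3) :
    u ≠ v ∧ u ∉ L i ∧ v ∉ L i ∧ (L i).Nodup ∧ 3 ≤ (L i).length := by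
  obtain ⟨j, k, h1, h2, h3⟩ := other i
  have h4 := (h.th i j k h1 h2 h3).ne
  have h5 := bal (h.th i j k h1 h2 h3) (h.sz i j k h1 h2 h3)
  exact ⟨h4.1, h4.2.1, h4.2.2.1, h4.2.2.2.1, h5.2.2.2.1⟩

theorem T3.inj {u v : V} {L : Fin 3 → List V} {N : ℕ} (h : T3 G u v L N) {i j : Fin 3} {w : V}
    (hi : w ∈ L i) (hj : w ∈ L j) : i = j := by
  by_contra hij
  obtain ⟨k, hik, hjk⟩ := third i j hij
  exact (h.th i j k hij hik hjk).ne.2.2.2.2 w hi hj

/-- A Hamilton path starting at `s`. -/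
structure Hp (G : SimpleGraph V) (s : V) (P : List V) : Prop where
  ch : (s :: P).IsChain G.Adj
  nd : (s :: P).Nodup
  all : ∀ w, w ∈ s :: P

/-- No Hamilton path from a branch vertex avoids the cross edges. -/
theorem claim0 {u v : V} {L : Fin 3 → List V} {N : ℕ} (h : T3 G u v L N) {P : List V}
    (hP : Hp G v P) (hC : (v :: P).IsChain (fun a b => ¬ Ce G L a b)) : False := by
  have huv := (h.leg 0).1
  have huP : u ∈ P := by
    have := hP.all u
    rw [List.mem_cons] at this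
    exact this.resolve_left huv
  obtain ⟨L1, L2, rfl⟩ := List.append_of_mem huP
  have hnd := hP.nd
  simp only [List.nodup_cons, List.nodup_append, List.mem_cons, List.mem_append, not_or] at hnd
  have hch : (v :: (L1 ++ u :: L2)).IsChain (fun a b => G.Adj a b ∧ ¬ Ce G L a b) := by
    rw [List.isChain_iff_forall_rel_of_append_cons_cons]
    intro a b l₁ l₂ hl
    exact ⟨List.isChain_iff_forall_rel_of_append_cons_cons.1 hP.ch hl,
      List.isChain_iff_forall_rel_of_append_cons_cons.1 hC hl⟩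
  have hch' := List.isChain_cons_split.1 hch
  have hc1 : L1.IsChain (fun a b => G.Adj a b ∧ ¬ Ce G L a b) :=
    (List.IsChain.left_of_append hch'.1.tail)
  have hc2 : L2.IsChain (fun a b => G.Adj a b ∧ ¬ Ce G L a b) := hch'.2.tail
  have hav : ∀ j, ∀ x ∈ ![L1, L2] j, x ≠ u ∧ x ≠ v := by
    intro j
    fin_cases j
    · intro x hx
      have hx' : x ∈ L1 := hx
      exact ⟨fun h => hnd.2.2.2 x hx' u (Or.inl rfl) h, fun h => hnd.1.1 (h ▸ hx')⟩
    · intro x hx
      have hx' : x ∈ L2 := hx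
      exact ⟨fun h => hnd.2.2.1.1 (h ▸ hx'), fun h => hnd.1.2.2 (h ▸ hx')⟩
  have hcc : ∀ j, (![L1, L2] j).IsChain (fun a b => G.Adj a b ∧ ¬ Ce G L a b) := by
    intro j
    fin_cases j
    · exact hc1
    · exact hc2
  have h3 := (pigeon ![L1, L2] (fun k x => x ∈ L k) (fun k k' x h1 h2 => h.inj h1 h2)
    (fun k => by
      have := (h.leg k).2.2.2.2
      exact List.exists_mem_of_length_pos (by omega))
    (fun k x hx => by
      have h1 := hP.all x
      simp only [List.mem_cons, List.mem_append] at h1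
      rcases h1 with h1 | h1 | h1 | h1
      · exact absurd (h1 ▸ hx) (h.leg k).2.2.1
      · exact ⟨0, h1⟩
      · exact absurd (h1 ▸ hx) (h.leg k).2.1
      · exact ⟨1, h1⟩)
    (fun j k => const _ _ _ (hcc j) (fun c hc d hd hcd => by
      obtain ⟨hc1, hc2⟩ := hav j c hc
      obtain ⟨hd1, hd2⟩ := hav j d hd
      have hc3 := (h.all c).resolve_left hc1 |>.resolve_left hc2
      have hd3 := (h.all d).resolve_left hd1 |>.resolve_left hd2
      obtain ⟨i, hi⟩ := hc3
      obtain ⟨i', hi'⟩ := hd3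
      have hii : i = i' := by
        by_contra hne
        exact hcd.2 ⟨hcd.1, i, i', hne, hi, hi'⟩
      constructor
      · intro hk
        have := h.inj hi hk
        rw [← this, hii]
        exact hi'
      · intro hk
        have := h.inj hi' hk
        rw [← this, ← hii]
        exact hi))).1
  omega

/-- Splitting of a Hamilton path at the two branch vertices and at a hub: general position. -/
theorem split3 {u v : V} {L : Fin 3 → List V} {N : ℕ} (h : T3 G u v L N) {P : List V}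
    (hP : Hp G v P) {i : Fin 3} {x : V} (hx : x ∈ L i)
    (hC : (v :: P).IsChain (fun a b => Ce G L a b → a = x ∨ b = x)) :
    ∃ (M : Fin 3 → List V) (s t : V), ((s = u ∧ t = x) ∨ (s = x ∧ t = u)) ∧ Con G s (M 1) t ∧
      (∀ j, (M j).Nodup) ∧
      (∀ j, (M j).IsChain (fun a b => G.Adj a b ∧ (Ce G L a b → a = x ∨ b = x))) ∧
      (∀ j, ∀ y ∈ M j, y ≠ u ∧ y ≠ v ∧ y ≠ x) ∧
      ∀ y, y ≠ u → y ≠ v → y ≠ x → ∃ j, y ∈ M j := by
  have huv := (h.leg 0).1
  have hxu : x ≠ u := fun h1 => (h.leg i).2.1 (h1 ▸ hx)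
  have hxv : x ≠ v := fun h1 => (h.leg i).2.2.1 (h1 ▸ hx)
  have huP : u ∈ P := by
    have := hP.all u
    rw [List.mem_cons] at this
    exact this.resolve_left huv
  have hxP : x ∈ P := by
    have := hP.all x
    rw [List.mem_cons] at this
    exact this.resolve_left hxv
  have key : ∀ s t L1 L2 L3, P = L1 ++ s :: (L2 ++ t :: L3) →
      ((s = u ∧ t = x) ∨ (s = x ∧ t = u)) →
      ∃ (M : Fin 3 → List V) (s t : V), ((s = u ∧ t = x) ∨ (s = x ∧ t = u)) ∧
      Con G s (M 1) t ∧ (∀ j, (M j).Nodup) ∧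
      (∀ j, (M j).IsChain (fun a b => G.Adj a b ∧ (Ce G L a b → a = x ∨ b = x))) ∧
      (∀ j, ∀ y ∈ M j, y ≠ u ∧ y ≠ v ∧ y ≠ x) ∧
      ∀ y, y ≠ u → y ≠ v → y ≠ x → ∃ j, y ∈ M j := by
    intro s t L1 L2 L3 hP' hst
    subst hP'
    have hnd := hP.nd
    simp only [List.nodup_cons, List.nodup_append, List.mem_cons, List.mem_append, not_or] at hnd
    have hch : (v :: (L1 ++ s :: (L2 ++ t :: L3))).IsChain
        (fun a b => G.Adj a b ∧ (Ce G L a b → a = x ∨ b = x)) := by
      rw [List.isChain_iff_forall_rel_of_append_cons_cons]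
      intro a b l₁ l₂ hl
      exact ⟨List.isChain_iff_forall_rel_of_append_cons_cons.1 hP.ch hl,
        List.isChain_iff_forall_rel_of_append_cons_cons.1 hC hl⟩
    have hch' := List.isChain_cons_split.1 hch
    have hch2 := List.isChain_cons_split.1 hch'.2
    refine ⟨![L1, L2, L3], s, t, hst, ?_, ?_, ?_, ?_, ?_⟩
    · show (s :: (L2 ++ [t])).IsChain G.Adj
      exact hch2.1.imp fun _ _ h => h.1
    · intro j
      fin_cases j
      · exact hnd.2.1
      · exact hnd.2.2.1.2.1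
      · exact hnd.2.2.1.2.2.1.2
    · intro j
      fin_cases j
      · exact List.IsChain.left_of_append hch'.1.tail
      · exact List.IsChain.left_of_append hch2.1.tail
      · exact hch2.2.tail
    · have hs : ∀ y : V, y ≠ s → y ≠ t → y ≠ v → y ≠ u ∧ y ≠ v ∧ y ≠ x := by
        rintro y h1 h2 h3
        rcases hst with ⟨rfl, rfl⟩ | ⟨rfl, rfl⟩
        · exact ⟨h1, h3, h2⟩
        · exact ⟨h2, h3, h1⟩
      intro j
      fin_cases j
      · intro y hy
        have hy' : y ∈ L1 := hy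
        exact hs y (fun h => hnd.2.2.2 y hy' s (Or.inl rfl) h)
          (fun h => hnd.2.2.2 y hy' t (Or.inr (Or.inr (Or.inl rfl))) h)
          (fun h => hnd.1.1 (h ▸ hy'))
      · intro y hy
        have hy' : y ∈ L2 := hy
        exact hs y (fun h => hnd.2.2.1.1.1 (h ▸ hy'))
          (fun h => hnd.2.2.1.2.2.2 y hy' t (Or.inl rfl) h)
          (fun h => hnd.1.2.2.1 (h ▸ hy'))
      · intro y hy
        have hy' : y ∈ L3 := hy
        exact hs y (fun h => hnd.2.2.1.1.2.2 (h ▸ hy'))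
          (fun h => hnd.2.2.1.2.2.1.1 (h ▸ hy'))
          (fun h => hnd.1.2.2.2.2 (h ▸ hy'))
    · intro y h1 h2 h3
      have h4 : y ≠ s ∧ y ≠ t := by
        rcases hst with ⟨rfl, rfl⟩ | ⟨rfl, rfl⟩
        · exact ⟨h1, h3⟩
        · exact ⟨h3, h1⟩
      have h5 := hP.all y
      simp only [List.mem_cons, List.mem_append] at h5
      rcases h5 with h5 | h5 | h5 | h5 | h5 | h5
      · exact absurd h5 h2
      · exact ⟨0, h5⟩
      · exact absurd h5 h4.1
      · exact ⟨1, h5⟩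
      · exact absurd h5 h4.2
      · exact ⟨2, h5⟩
  rcases split_two huP hxP hxu.symm with ⟨X1, X2, X3, hX⟩ | ⟨X1, X2, X3, hX⟩
  · exact key u x X1 X2 X3 hX (Or.inl ⟨rfl, rfl⟩)
  · exact key x u X1 X2 X3 hX (Or.inr ⟨rfl, rfl⟩)

theorem T3.notin {u v : V} {L : Fin 3 → List V} {N : ℕ} (h : T3 G u v L N) {y : V}
    (hu : y ≠ u) (hv : y ≠ v) : ∃ i, y ∈ L i :=
  ((h.all y).resolve_left hu).resolve_left hv

/-- The hub is the first or the last vertex of its leg. -/
theorem claim1 {u v : V} {L : Fin 3 → List V} {N : ℕ} (h : T3 G u v L N) {P : List V}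
    (hP : Hp G v P) {i : Fin 3} {x a : V} {H1 H2 : List V} (hL : L i = H1 ++ x :: H2)
    (hx : Ce G L a x) (hC : (v :: P).IsChain (fun a b => Ce G L a b → a = x ∨ b = x))
    (hH1 : H1 ≠ []) (hH2 : H2 ≠ []) : False := by
  have hxi : x ∈ L i := by
    rw [hL]
    simp
  obtain ⟨M, s, t, -, -, -, hch, hav, hcov⟩ := split3 h hP hxi hC
  obtain ⟨j, k, hij, hik, hjk⟩ := other i
  have hnd := (h.leg i).2.2.2.1
  rw [hL] at hnd
  simp only [List.nodup_cons, List.nodup_append, List.mem_cons] at hnd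
  have hsub1 : ∀ y ∈ H1, y ∈ L i := fun y hy => by
    rw [hL]
    simp [hy]
  have hsub2 : ∀ y ∈ H2, y ∈ L i := fun y hy => by
    rw [hL]
    simp [hy]
  have hne1 : ∀ y ∈ H1, y ≠ x := fun y hy => hnd.2.2 y hy x (Or.inl rfl)
  have hne2 : ∀ y ∈ H2, y ≠ x := fun y hy h => hnd.2.1.1 (h ▸ hy)
  have hne12 : ∀ y ∈ H1, y ∉ H2 := fun y hy hy' => hnd.2.2 y hy y (Or.inr hy') rfl
  -- the cross edge at `x`
  obtain ⟨hax, i1, i2, h12, ha1, hx2⟩ := hx
  have hi2 : i2 = i := h.inj hx2 hxi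
  rw [hi2] at h12
  obtain ⟨i3, h13, h23⟩ := third i1 i h12
  have hjump : ∀ p ∈ H1, ∀ r ∈ H2, ¬ G.Adj p r := fun p hp r hr => by
    have hT := h.th i i1 i3 h12.symm h23 h13
    have hS := h.sz i i1 i3 h12.symm h23 h13
    rw [hL] at hT hS
    exact jump hT hS hp hr ha1 hax.symm
  have h4 := (pigeon M (![fun y => y ∈ H1, fun y => y ∈ H2, fun y => y ∈ L j,
    fun y => y ∈ L k] : Fin 4 → V → Prop) ?_ ?_ ?_ ?_).1
  · omega
  · intro k1 k2 y h1 h2
    fin_cases k1 <;> fin_cases k2 <;> first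
      | rfl
      | (exfalso
         first
         | exact hne12 y h1 h2
         | exact hne12 y h2 h1
         | exact hij (h.inj (hsub1 y h1) h2)
         | exact hij (h.inj (hsub2 y h1) h2)
         | exact hik (h.inj (hsub1 y h1) h2)
         | exact hik (h.inj (hsub2 y h1) h2)
         | exact hij (h.inj (hsub1 y h2) h1)
         | exact hij (h.inj (hsub2 y h2) h1)
         | exact hik (h.inj (hsub1 y h2) h1)
         | exact hik (h.inj (hsub2 y h2) h1)
         | exact hjk (h.inj h1 h2)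
         | exact hjk (h.inj h2 h1))
  · intro k1
    fin_cases k1
    · exact List.exists_mem_of_ne_nil _ hH1
    · exact List.exists_mem_of_ne_nil _ hH2
    · exact List.exists_mem_of_length_pos (by have := (h.leg j).2.2.2.2; omega)
    · exact List.exists_mem_of_length_pos (by have := (h.leg k).2.2.2.2; omega)
  · intro k1 y hy
    have key : ∀ i', y ∈ L i' → y ≠ x → ∃ j, y ∈ M j := fun i' hi' hyx =>
      hcov y (fun h1 => (h.leg i').2.1 (h1 ▸ hi')) (fun h1 => (h.leg i').2.2.1 (h1 ▸ hi')) hyx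
    fin_cases k1
    · exact key i (hsub1 y hy) (hne1 y hy)
    · exact key i (hsub2 y hy) (hne2 y hy)
    · exact key j hy (fun h1 => hij (h.inj hxi (h1 ▸ hy)))
    · exact key k hy (fun h1 => hik (h.inj hxi (h1 ▸ hy)))
  · intro j1 k1
    refine const _ _ _ (hch j1) fun c hc d hd hcd => ?_
    obtain ⟨hc1, hc2, hc3⟩ := hav j1 c hc
    obtain ⟨hd1, hd2, hd3⟩ := hav j1 d hd
    obtain ⟨ic, hic⟩ := h.notin hc1 hc2
    obtain ⟨id, hid⟩ := h.notin hd1 hd2
    have hcdi : ic = id := by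
      by_contra hne
      rcases hcd.2 ⟨hcd.1, ic, id, hne, hic, hid⟩ with h1 | h1
      · exact hc3 h1
      · exact hd3 h1
    rw [← hcdi] at hid
    have hleg : ∀ k2, (c ∈ L k2 ↔ d ∈ L k2) := fun k2 =>
      ⟨fun h1 => by rw [← h.inj hic h1]; exact hid, fun h1 => by rw [← h.inj hid h1]; exact hic⟩
    have hmem : ∀ y, y ∈ L i → y ≠ x → y ∈ H1 ∨ y ∈ H2 := fun y hy hyx => by
      rw [hL, List.mem_append, List.mem_cons] at hy
      rcases hy with hy | hy | hy
      · exact Or.inl hy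
      · exact absurd hy hyx
      · exact Or.inr hy
    have hH1' : ∀ c d : V, G.Adj c d → c ≠ x → d ≠ x → (c ∈ L i ↔ d ∈ L i) → c ∈ H1 → d ∈ H1 :=
      fun c d hcd hcx hdx hcdL hc => by
        rcases hmem d (hcdL.1 (hsub1 c hc)) hdx with h1 | h1
        · exact h1
        · exact absurd hcd (hjump c hc d h1)
    have hH2' : ∀ c d : V, G.Adj c d → c ≠ x → d ≠ x → (c ∈ L i ↔ d ∈ L i) → c ∈ H2 → d ∈ H2 :=
      fun c d hcd hcx hdx hcdL hc => by
        rcases hmem d (hcdL.1 (hsub2 c hc)) hdx with h1 | h1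
        · exact absurd hcd.symm (hjump d h1 c hc)
        · exact h1
    fin_cases k1
    · exact ⟨hH1' c d hcd.1 hc3 hd3 (hleg i), hH1' d c hcd.1.symm hd3 hc3 (hleg i).symm⟩
    · exact ⟨hH2' c d hcd.1 hc3 hd3 (hleg i), hH2' d c hcd.1.symm hd3 hc3 (hleg i).symm⟩
    · exact hleg j
    · exact hleg k

end Pool.Agent.KTH
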